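import Pool.Agent.W622.ETG.Lin

set_option autoImplicit false

namespace Pool.Agent.W304.ELG

open Pool.Agent.W622.ETG Module

theorem indep_insert {V : Type} [AddCommGroup V] [Module (ZMod 2) V] {u : Set (DSub V)}
    {X : DSub V} (hu : sSupIndep u) (hX : Disjoint X (sSup u)) : sSupIndep (insert X u) := by
  intro a ha
  by_cases hXu : X ∈ u
  · rw [Set.insert_eq_of_mem hXu] at ha ⊢
    exact hu ha
  rcases ha with rfl | ha
  · rw [Set.insert_sdiff_self_of_notMem hXu]
    exact hX
  · have hne : a ≠ X := fun h => hXu (h ▸ ha)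
    have h1 : insert X u \ {a} = insert X (u \ {a}) := by
      rw [Set.insert_sdiff_of_notMem]
      intro h
      exact hne (Set.mem_singleton_iff.mp h).symm
    rw [h1, sSup_insert]
    have h2 : Disjoint a (sSup (u \ {a})) := hu ha
    rw [Submodule.disjoint_def] at hX h2 ⊢
    intro f hfa hf
    obtain ⟨x, hx, y, hy, rfl⟩ := Submodule.mem_sup.mp hf
    have hle : sSup (u \ {a}) ≤ sSup u := sSup_le_sSup fun z hz => hz.1
    have hyu : y ∈ sSup u := hle hy
    have hau : x + y ∈ sSup u := (le_sSup ha) hfa
    have hxu : x ∈ sSup u := by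
      have := Submodule.add_mem _ hau hyu
      rwa [add_cancel'] at this
    have hx0 := hX x hx hxu
    subst hx0
    rw [zero_add] at hfa ⊢
    exact h2 y hfa hy

theorem t_FIND (hDEC : S_DEC) (hBFULL : S_BFULL) (hNF : S_NF)
    (hBLK : S_BLK) (hADD : S_ADD) (hBDIS : S_BDIS) (hCOMP : S_COMP) : S_FIND := by
  intro V _ _ _ e A N hFW hN hNtop
  classical
  have hmc := hFW.mc
  have hAlt := hmc.ef
  obtain ⟨b, hb0, hNb⟩ := exists_ann hNtop
  have hFb : ∀ F ∈ N, F ≤ ann b := fun F hF => (le_sSup hF).trans hNb
  -- `N` is independent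
  have hNind : sSupIndep N := by
    obtain ⟨-, s, hs⟩ := hNF V e (res A (ann b)) (hmc.el _ (ann_ne_top hb0))
    have hsub : N ⊆ s := fun F hF => hBLK V e A F (ann b) s hAlt (hN hF).1 (hFb F hF) hs
    exact hs.1.mono hsub
  -- a sum of members supported in the `F ∈ N` has `X`-part zero
  have hzero : ∀ X : DSub V, IsPr A X 0 0 := by
    intro X
    refine ⟨Submodule.zero_mem _, ?_⟩
    rw [add_zero, sp_zero]
    exact disjoint_bot_left
  have hstepN : ∀ X ∈ GB e A, ∀ (ω : DSub V → Frm V) (t : Finset (DSub V)),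
      (t : Set (DSub V)) ⊆ N → (∀ F ∈ t, ω F ∈ res A F) →
      (∑ F ∈ t, ω F) ∈ A ∧ (∑ F ∈ t, ω F) b = 0 ∧ IsPr A X (∑ F ∈ t, ω F) 0 := by
    intro X hX ω t
    induction t using Finset.induction_on with
    | empty =>
      intro _ _
      simp only [Finset.sum_empty]
      exact ⟨Submodule.zero_mem _, rfl, hzero X⟩
    | insert F t hF ih =>
      intro hsub hmem
      have hFN : F ∈ N := hsub (by simp)
      obtain ⟨i1, i2, i3⟩ := ih (fun Y hY => hsub (by simp [Finset.mem_coe.mp hY]))
        (fun Y hY => hmem Y (by simp [hY]))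
      have hF' := hmem F (by simp)
      rw [Finset.sum_insert hF]
      have hωb : ω F b = 0 := by
        have h1 : ω F ∈ res A (ann b) := res_mono A (hFb F hFN) hF'
        exact ((mem_res_ann hAlt).mp h1).2
      have hne : X ≠ F := by
        rintro rfl
        exact (hN hFN).2 hX.2
      have hdis := hBDIS V e A X F hmc hX (hN hFN).1 hne
      have hpr : IsPr A X (ω F) 0 := by
        refine ⟨Submodule.zero_mem _, ?_⟩
        rw [add_zero]
        exact (hdis.symm).mono_left (mem_res'.mp hF').2
      refine ⟨A.add_mem hF'.1 i1, ?_, ?_⟩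
      · rw [LinearMap.add_apply, hωb, i2, add_zero]
      · have := hADD V e A X b (ω F) (∑ F ∈ t, ω F) 0 0 hmc hX hb0 hF'.1 i1 hωb i2 hpr i3
        rwa [add_zero] at this
  have hstepG : ∀ X ∈ GB e A, ∀ (ω : DSub V → Frm V) (ζ : Frm V), ζ ∈ A → IsPr A X ζ 0 →
      ∀ t : Finset (DSub V), (t : Set (DSub V)) ⊆ GB e A → X ∉ t → (∀ Z ∈ t, ω Z ∈ res A Z) →
      (ζ + ∑ Z ∈ t, ω Z) ∈ A ∧ IsPr A X (ζ + ∑ Z ∈ t, ω Z) 0 := by
    intro X hX ω ζ hζ hpr t
    induction t using Finset.induction_on with
    | empty =>
      intro _ _ _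
      simp only [Finset.sum_empty, add_zero]
      exact ⟨hζ, hpr⟩
    | insert Z t hZ ih =>
      intro hsub hXt hmem
      have hZG : Z ∈ GB e A := hsub (by simp)
      have hXZ : X ≠ Z := by
        rintro rfl
        exact hXt (by simp)
      obtain ⟨i1, i2⟩ := ih (fun Y hY => hsub (by simp [Finset.mem_coe.mp hY]))
        (fun h => hXt (by simp [h])) (fun Y hY => hmem Y (by simp [hY]))
      have hZ' := hmem Z (by simp)
      have he : ζ + ∑ Y ∈ insert Z t, ω Y = (ζ + ∑ Y ∈ t, ω Y) + ω Z := by
        rw [Finset.sum_insert hZ]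
        abel
      rw [he]
      exact ⟨A.add_mem i1 hZ'.1, hCOMP V e A X Z _ _ 0 hmc hFW.cone hX hZG hXZ i1 hZ' i2⟩
  -- the induction
  let N' : Finset (DSub V) := (Set.toFinite N).toFinset
  have hN' : (N' : Set (DSub V)) = N := by simp [N']
  have key : ∀ t : Finset (DSub V), (t : Set (DSub V)) ⊆ GB e A →
      sSupIndep ((t : Set (DSub V)) ∪ N) := by
    intro t
    induction t using Finset.induction_on with
    | empty =>
      intro _
      simpa using hNind
    | insert X t hXt ih =>
      intro hsub
      have hX : X ∈ GB e A := hsub (by simp)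
      have ht : (t : Set (DSub V)) ⊆ GB e A := fun Y hY => hsub (by simp [Finset.mem_coe.mp hY])
      have hind := ih ht
      have he : ((insert X t : Finset (DSub V)) : Set (DSub V)) ∪ N
          = insert X ((t : Set (DSub V)) ∪ N) := by
        rw [Finset.coe_insert, Set.insert_union]
      rw [he]
      refine indep_insert hind ?_
      rw [Submodule.disjoint_def]
      intro x hxX hxu
      -- write `x` as a sum
      have hu : sSup ((t : Set (DSub V)) ∪ N) = ⨆ Z ∈ t ∪ N', Z := by
        rw [sSup_eq_iSup]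
        apply le_antisymm
        · refine iSup_le fun Z => iSup_le fun hZ => ?_
          refine le_iSup_of_le Z (le_iSup_of_le ?_ le_rfl)
          rw [Finset.mem_union]
          rcases hZ with h | h
          · exact Or.inl h
          · right
            rw [← Finset.mem_coe, hN']
            exact h
        · refine iSup_le fun Z => iSup_le fun hZ => ?_
          refine le_iSup_of_le Z (le_iSup_of_le ?_ le_rfl)
          rw [Finset.mem_union] at hZ
          rcases hZ with h | h
          · exact Or.inl h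
          · right
            rw [← hN']
            exact h
      rw [hu, Submodule.mem_iSup_finset_iff_exists_sum] at hxu
      obtain ⟨μ, hμ⟩ := hxu
      have hblk : ∀ Z ∈ t ∪ N', Block e A Z := by
        intro Z hZ
        rw [Finset.mem_union] at hZ
        rcases hZ with h | h
        · exact (ht h).1
        · have : Z ∈ N := by rw [← hN']; exact h
          exact (hN this).1
      have hch : ∀ Z : DSub V, ∃ ω : Frm V, ∃ a : V, Z ∈ t ∪ N' → ω ∈ res A Z ∧ ω a = (μ Z : Dl V) := by
        intro Z
        by_cases hZ : Z ∈ t ∪ N'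
        · obtain ⟨ω, hω, a, ha⟩ := hBFULL V e A Z (μ Z) (hblk Z hZ) (μ Z).2
          exact ⟨ω, a, fun _ => ⟨hω, ha⟩⟩
        · exact ⟨0, 0, fun h => absurd h hZ⟩
      choose ω α hωα using hch
      obtain ⟨a, ha⟩ := glue _ α hind
      have hval : ∀ Z ∈ t ∪ N', ω Z a = (μ Z : Dl V) := by
        intro Z hZ
        obtain ⟨h1, h2⟩ := hωα Z hZ
        have hZ' : Z ∈ (t : Set (DSub V)) ∪ N := by
          rw [Finset.mem_union] at hZ
          rcases hZ with h | h
          · exact Or.inl h
          · right
            rw [← hN']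
            exact h
        rw [← h2]
        refine LinearMap.ext fun v => ?_
        have hal := hAlt _ h1.1
        rw [hal.symm a v, hal.symm (α Z) v]
        exact ha Z hZ' _ (h1.2 v)
      have hdisj : Disjoint t N' := by
        rw [Finset.disjoint_left]
        intro Z h1 h2
        have : Z ∈ N := by rw [← hN']; exact h2
        exact (hN this).2 (ht h1).2
      obtain ⟨k1, -, k3⟩ := hstepN X hX ω N' (by rw [hN'])
        (fun F hF => (hωα F (Finset.mem_union_right t hF)).1)
      obtain ⟨l1, l2⟩ := hstepG X hX ω _ k1 k3 t ht hXt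
        (fun Z hZ => (hωα Z (Finset.mem_union_left N' hZ)).1)
      have hsum : (∑ F ∈ N', ω F + ∑ Z ∈ t, ω Z) a = x := by
        rw [← hμ, Finset.sum_union hdisj, LinearMap.add_apply, LinearMap.sum_apply,
          LinearMap.sum_apply, add_comm]
        congr 1
        · exact Finset.sum_congr rfl fun Z hZ => hval Z (Finset.mem_union_left N' hZ)
        · exact Finset.sum_congr rfl fun Z hZ => hval Z (Finset.mem_union_right t hZ)
      have h3 := ((hDEC V e A X hAlt).2.2 _ l1 0 l2).2.2 a (by rw [hsum]; exact hxX)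
      rw [hsum] at h3
      rw [← h3]
      rfl
  have h4 := key (Set.toFinite (GB e A)).toFinset (by simp)
  simpa using h4

end Pool.Agent.W304.ELG
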